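import Pool.Agent.Helper96.MP.Defs

/-!
# MP_bde085_nt: Hecke operators preserve cusp forms of weight two
-/

set_option autoImplicit false

namespace Pool.Agent.Helper96.MP

open Complex MeasureTheory Filter Topology
open scoped MatrixGroups

theorem hecke_Tn {l : ℕ} (hl : l.Prime) :
    Tn l = insert (l, 0, 1) ((Finset.range l).image (fun j => (1, j, l))) := by
  ext ⟨a, b, d⟩
  simp only [Tn, Finset.mem_filter, Finset.mem_product, Finset.mem_range, Finset.mem_insert,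
    Finset.mem_image, Prod.mk.injEq]
  constructor
  · rintro ⟨⟨ha, hb, hd⟩, had, hbd⟩
    rcases (Nat.dvd_prime hl).1 ⟨d, had.symm⟩ with h | h
    · right
      subst h
      have : d = l := by omega
      subst this
      exact ⟨b, hbd, rfl, rfl, rfl⟩
    · left
      subst h
      have h1 : d = 1 := by
        have := hl.pos
        exact Nat.eq_of_mul_eq_mul_left this (by omega)
      subst h1
      exact ⟨rfl, by omega, rfl⟩
  · rintro (⟨rfl, rfl, rfl⟩ | ⟨j, hj, rfl, rfl, rfl⟩)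
    · have := hl.pos
      refine ⟨⟨by omega, by omega, by omega⟩, by omega, by omega⟩
    · have := hl.pos
      refine ⟨⟨by omega, by omega, by omega⟩, by omega, by omega⟩

/-- the Hecke operator on functions -/
noncomputable def heckeG (l : ℕ) (g : ℂ → ℂ) (τ : ℂ) : ℂ :=
  ∑ t ∈ Tn l, ((l : ℂ) / (t.2.2 : ℂ) ^ 2) * g (((t.1 : ℂ) * τ + (t.2.1 : ℂ)) / (t.2.2 : ℂ))

theorem heckeG_eq {l : ℕ} (hl : l.Prime) (g : ℂ → ℂ) (τ : ℂ) :
    heckeG l g τ = (l : ℂ) * g ((l : ℂ) * τ)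
      + ∑ j ∈ Finset.range l, (1 / (l : ℂ)) * g ((τ + (j : ℂ)) / (l : ℂ)) := by
  have hl0 : (l : ℂ) ≠ 0 := by exact_mod_cast hl.ne_zero
  rw [heckeG, hecke_Tn hl, Finset.sum_insert, Finset.sum_image]
  · congr 1
    · simp
    · refine Finset.sum_congr rfl fun j _ => ?_
      simp only [Nat.cast_one, one_mul]
      congr 1
      field_simp
  · intro i _ j _ hij
    simpa using hij
  · simp only [Finset.mem_image, Finset.mem_range, Prod.mk.injEq, not_exists, not_and]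
    intro j _ h1 _ h3
    exact absurd h3 hl.one_lt.ne'

theorem hecke_char {l : ℕ} (hl : l.Prime) (m : ℕ) :
    ∑ j ∈ Finset.range l, (1 / (l : ℂ)) * exp (2 * (Real.pi : ℂ) * I * (m : ℂ) * ((j : ℂ) / (l : ℂ)))
      = if l ∣ m then 1 else 0 := by
  have hl0 : (l : ℂ) ≠ 0 := by exact_mod_cast hl.ne_zero
  have h1 : ∀ j ∈ Finset.range l,
      (1 / (l : ℂ)) * exp (2 * (Real.pi : ℂ) * I * (m : ℂ) * ((j : ℂ) / (l : ℂ)))
        = (1 / (l : ℂ)) * (exp (2 * (Real.pi : ℂ) * I * ((m : ℂ) / (l : ℂ)))) ^ j := by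
    intro j _
    rw [← Complex.exp_nat_mul]
    congr 2
    field_simp
  rw [Finset.sum_congr rfl h1, ← Finset.mul_sum]
  by_cases hd : l ∣ m
  · rw [if_pos hd]
    obtain ⟨k, rfl⟩ := hd
    have h2 : exp (2 * (Real.pi : ℂ) * I * (((l * k : ℕ) : ℂ) / (l : ℂ))) = 1 := by
      rw [Complex.exp_eq_one_iff]
      refine ⟨(k : ℤ), ?_⟩
      push_cast
      field_simp
    rw [h2]
    simp [hl0]
  · rw [if_neg hd]
    have h3 : exp (2 * (Real.pi : ℂ) * I * ((m : ℂ) / (l : ℂ))) ≠ 1 := by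
      intro h
      rw [Complex.exp_eq_one_iff] at h
      obtain ⟨n, hn⟩ := h
      have hpi : (2 * (Real.pi : ℂ) * I) ≠ 0 := by
        simp [Real.pi_ne_zero]
      have h4 : (m : ℂ) / (l : ℂ) = (n : ℂ) := by
        have : 2 * (Real.pi : ℂ) * I * ((m : ℂ) / (l : ℂ)) = 2 * (Real.pi : ℂ) * I * (n : ℂ) := by
          rw [hn]; ring
        exact mul_left_cancel₀ hpi this
      rw [div_eq_iff hl0] at h4
      have h5 : (m : ℤ) = n * (l : ℤ) := by exact_mod_cast h4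
      apply hd
      have : (l : ℤ) ∣ (m : ℤ) := ⟨n, by rw [h5]; ring⟩
      exact_mod_cast this
    have h6 : (exp (2 * (Real.pi : ℂ) * I * ((m : ℂ) / (l : ℂ)))) ^ l = 1 := by
      rw [← Complex.exp_nat_mul, Complex.exp_eq_one_iff]
      refine ⟨(m : ℤ), ?_⟩
      push_cast
      field_simp
    have h7 := mul_geom_sum (exp (2 * (Real.pi : ℂ) * I * ((m : ℂ) / (l : ℂ)))) l
    rw [h6, sub_self] at h7
    rcases mul_eq_zero.1 h7 with h | h
    · exact absurd (sub_eq_zero.1 h) h3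
    · rw [h, mul_zero]

theorem hecke_hasSum {M l : ℕ} {b : ℕ → ℂ} (hl : l.Prime) (hb : Cusp M b) {τ : ℂ}
    (hτ : 0 < τ.im) :
    HasSum (fun k : ℕ => Tl l b k * exp (2 * (Real.pi : ℂ) * I * (k : ℂ) * τ))
      (heckeG l (qs b) τ) := by
  have hl0 : (l : ℂ) ≠ 0 := by exact_mod_cast hl.ne_zero
  have hlr : (0 : ℝ) < (l : ℝ) := by exact_mod_cast hl.pos
  have hinj : Function.Injective (fun n : ℕ => l * n) := by
    intro x y hxy
    exact Nat.eq_of_mul_eq_mul_left hl.pos hxy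
  -- first part
  have hA : HasSum (fun k : ℕ => b (l * k) * exp (2 * (Real.pi : ℂ) * I * (k : ℂ) * τ))
      (∑ j ∈ Finset.range l, (1 / (l : ℂ)) * qs b ((τ + (j : ℂ)) / (l : ℂ))) := by
    have h1 : ∀ j ∈ Finset.range l,
        HasSum (fun m : ℕ => (1 / (l : ℂ)) * (b m *
          exp (2 * (Real.pi : ℂ) * I * (m : ℂ) * ((τ + (j : ℂ)) / (l : ℂ)))))
          ((1 / (l : ℂ)) * qs b ((τ + (j : ℂ)) / (l : ℂ))) := by
      intro j _
      refine HasSum.mul_left _ ?_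
      refine (hb.sum _ ?_).hasSum
      have : ((τ + (j : ℂ)) / (l : ℂ)).im = τ.im / l := by
        rw [Complex.div_natCast_im]; simp
      rw [this]; positivity
    have h2 := hasSum_sum h1
    have h3 : (fun m : ℕ => ∑ j ∈ Finset.range l, (1 / (l : ℂ)) * (b m *
          exp (2 * (Real.pi : ℂ) * I * (m : ℂ) * ((τ + (j : ℂ)) / (l : ℂ)))))
        = fun m : ℕ => b m * exp (2 * (Real.pi : ℂ) * I * (m : ℂ) * (τ / (l : ℂ)))
            * (if l ∣ m then 1 else 0) := by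
      funext m
      rw [← hecke_char hl m, Finset.mul_sum]
      refine Finset.sum_congr rfl fun j _ => ?_
      have : exp (2 * (Real.pi : ℂ) * I * (m : ℂ) * ((τ + (j : ℂ)) / (l : ℂ)))
          = exp (2 * (Real.pi : ℂ) * I * (m : ℂ) * (τ / (l : ℂ)))
            * exp (2 * (Real.pi : ℂ) * I * (m : ℂ) * ((j : ℂ) / (l : ℂ))) := by
        rw [← Complex.exp_add]
        congr 1
        ring
      rw [this]; ring
    rw [h3] at h2
    have h4 := (hinj.hasSum_iff (f := fun m : ℕ => b m *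
      exp (2 * (Real.pi : ℂ) * I * (m : ℂ) * (τ / (l : ℂ))) * (if l ∣ m then 1 else 0)) ?_).2 h2
    · refine h4.congr_fun ?_ |> fun h => h
      intro k
      simp only [Function.comp, dvd_mul_right, if_true, mul_one]
      congr 2
      push_cast
      field_simp
    · intro x hx
      have : ¬ l ∣ x := by
        rintro ⟨k, rfl⟩
        exact hx ⟨k, rfl⟩
      simp [this]
  -- second part
  have hB : HasSum (fun k : ℕ => (if l ∣ k then (l : ℂ) * b (k / l) else 0) *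
      exp (2 * (Real.pi : ℂ) * I * (k : ℂ) * τ)) ((l : ℂ) * qs b ((l : ℂ) * τ)) := by
    have h1 : HasSum (fun m : ℕ => (l : ℂ) * (b m *
        exp (2 * (Real.pi : ℂ) * I * (m : ℂ) * ((l : ℂ) * τ)))) ((l : ℂ) * qs b ((l : ℂ) * τ)) := by
      refine HasSum.mul_left _ ?_
      refine (hb.sum _ ?_).hasSum
      have : ((l : ℂ) * τ).im = l * τ.im := by simp
      rw [this]; positivity
    refine (hinj.hasSum_iff ?_).1 ?_
    · intro x hx
      have : ¬ l ∣ x := by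
        rintro ⟨k, rfl⟩
        exact hx ⟨k, rfl⟩
      simp [this]
    · refine h1.congr_fun ?_ |> fun h => h
      intro k
      simp only [Function.comp, dvd_mul_right, if_true, Nat.mul_div_cancel_left _ hl.pos]
      rw [mul_assoc]
      congr 3
      push_cast
      ring
  rw [heckeG_eq hl]
  have := hB.add hA
  refine this.congr_fun ?_ |> fun h => h
  intro k
  simp only [Tl]
  ring

theorem hecke_inv {M l : ℕ} {g : ℂ → ℂ} (hP : ST_PERM) (hM : 1 ≤ M) (hl : l.Prime)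
    (hlM : ¬ l ∣ M)
    (hg : ∀ τ : ℂ, 0 < τ.im → ∀ p q r s : ℤ, p * s - q * r = 1 → (M : ℤ) ∣ r →
      g (((p : ℂ) * τ + (q : ℂ)) / ((r : ℂ) * τ + (s : ℂ))) = ((r : ℂ) * τ + (s : ℂ)) ^ 2 * g τ)
    {τ : ℂ} (hτ : 0 < τ.im) {p q r s : ℤ} (hdet : p * s - q * r = 1) (hr : (M : ℤ) ∣ r) :
    heckeG l g (((p : ℂ) * τ + (q : ℂ)) / ((r : ℂ) * τ + (s : ℂ)))
      = ((r : ℂ) * τ + (s : ℂ)) ^ 2 * heckeG l g τ := by
  have hcop : Nat.Coprime l M := (Nat.Prime.coprime_iff_not_dvd hl).2 hlM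
  obtain ⟨e, he⟩ := hP M l hM hl.one_le hcop p q r s ⟨hdet, hr⟩
  -- denominators
  have hne : ∀ p q r s : ℤ, p * s - q * r = 1 → ∀ z : ℂ, 0 < z.im →
      ((r : ℂ) * z + (s : ℂ)) ≠ 0 := by
    intro p q r s h z hz h0
    have him : (r : ℝ) * z.im = 0 := by
      have := congrArg Complex.im h0
      simpa using this
    have hr0 : (r : ℝ) = 0 := by
      rcases mul_eq_zero.1 him with h | h
      · exact h
      · exact absurd h hz.ne'
    have hr1 : r = 0 := by exact_mod_cast hr0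
    subst hr1
    have hs0 : (s : ℂ) = 0 := by simpa using h0
    have hs1 : s = 0 := by exact_mod_cast hs0
    subst hs1
    simp at h
  have hj := hne p q r s hdet τ hτ
  have hd0 : ∀ t : {t // t ∈ Tn l}, ((t.1.2.2 : ℕ) : ℂ) ≠ 0 := by
    intro t
    have := t.2
    simp only [Tn, Finset.mem_filter] at this
    have h1 : 0 < t.1.2.2 := by omega
    exact_mod_cast h1.ne'
  have ha0 : ∀ t : {t // t ∈ Tn l}, 0 < t.1.1 := by
    intro t
    have := t.2
    simp only [Tn, Finset.mem_filter] at this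
    rcases Nat.eq_zero_or_pos t.1.1 with h | h
    · rw [h, zero_mul] at this
      exact absurd this.2.1.symm hl.ne_zero
    · exact h
  unfold heckeG
  rw [← Finset.sum_coe_sort (Tn l)
    (fun t => ((l : ℂ) / (t.2.2 : ℂ) ^ 2) * g (((t.1 : ℂ) * (((p : ℂ) * τ + (q : ℂ)) /
      ((r : ℂ) * τ + (s : ℂ))) + (t.2.1 : ℂ)) / (t.2.2 : ℂ))),
    ← Finset.sum_coe_sort (Tn l)
    (fun t => ((l : ℂ) / (t.2.2 : ℂ) ^ 2) * g (((t.1 : ℂ) * τ + (t.2.1 : ℂ)) / (t.2.2 : ℂ))),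
    Finset.mul_sum]
  refine (Finset.sum_congr rfl fun t _ => ?_).trans (Equiv.sum_comp e
    (fun t : {t // t ∈ Tn l} => ((r : ℂ) * τ + (s : ℂ)) ^ 2 * (((l : ℂ) / (t.1.2.2 : ℂ) ^ 2) *
      g (((t.1.1 : ℂ) * τ + (t.1.2.1 : ℂ)) / (t.1.2.2 : ℂ)))))
  obtain ⟨p', q', r', s', ⟨hdet', hr'⟩, h1, h2, h3, h4⟩ := he t
  have h1c : (t.1.1 : ℂ) * p + t.1.2.1 * r = p' * (e t).1.1 := by exact_mod_cast h1
  have h2c : (t.1.1 : ℂ) * q + t.1.2.1 * s = p' * (e t).1.2.1 + q' * (e t).1.2.2 := by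
    exact_mod_cast h2
  have h3c : (t.1.2.2 : ℂ) * r = r' * (e t).1.1 := by exact_mod_cast h3
  have h4c : (t.1.2.2 : ℂ) * s = r' * (e t).1.2.1 + s' * (e t).1.2.2 := by exact_mod_cast h4
  have hd := hd0 t
  have hd' := hd0 (e t)
  set z : ℂ := (((e t).1.1 : ℂ) * τ + ((e t).1.2.1 : ℂ)) / ((e t).1.2.2 : ℂ) with hz
  have hzim : 0 < z.im := by
    rw [hz, Complex.div_natCast_im]
    have hda : (0 : ℝ) < ((e t).1.2.2 : ℝ) := by
      have : (((e t).1.2.2 : ℕ)) ≠ 0 := by exact_mod_cast hd'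
      exact_mod_cast Nat.pos_of_ne_zero this
    have haa : (0 : ℝ) < ((e t).1.1 : ℝ) := by exact_mod_cast ha0 (e t)
    have : (((e t).1.1 : ℂ) * τ + ((e t).1.2.1 : ℂ)).im = ((e t).1.1 : ℝ) * τ.im := by simp
    rw [this]; positivity
  have hz' : ((e t).1.2.2 : ℂ) * z = ((e t).1.1 : ℂ) * τ + ((e t).1.2.1 : ℂ) := by
    rw [hz]; field_simp
  have hj' := hne p' q' r' s' hdet' z hzim
  -- the argument
  have hden : (r' : ℂ) * z + (s' : ℂ)
      = (t.1.2.2 : ℂ) * ((r : ℂ) * τ + (s : ℂ)) / ((e t).1.2.2 : ℂ) := by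
    rw [eq_div_iff hd']
    linear_combination (r' : ℂ) * hz' - τ * h3c - h4c
  have hnum : (p' : ℂ) * z + (q' : ℂ)
      = ((t.1.1 : ℂ) * ((p : ℂ) * τ + (q : ℂ)) + (t.1.2.1 : ℂ) * ((r : ℂ) * τ + (s : ℂ)))
        / ((e t).1.2.2 : ℂ) := by
    rw [eq_div_iff hd']
    linear_combination (p' : ℂ) * hz' - τ * h1c - h2c
  have harg : ((t.1.1 : ℂ) * (((p : ℂ) * τ + (q : ℂ)) /
      ((r : ℂ) * τ + (s : ℂ))) + (t.1.2.1 : ℂ)) / (t.1.2.2 : ℂ)
      = ((p' : ℂ) * z + (q' : ℂ)) / ((r' : ℂ) * z + (s' : ℂ)) := by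
    rw [hnum, hden]
    clear hnum hden
    generalize (r : ℂ) * τ + (s : ℂ) = J at hj ⊢
    generalize (p : ℂ) * τ + (q : ℂ) = K
    field_simp
  have hgz := hg z hzim p' q' r' s' hdet' hr'
  change (l : ℂ) / (t.1.2.2 : ℂ) ^ 2 * g (((t.1.1 : ℂ) * (((p : ℂ) * τ + (q : ℂ)) /
      ((r : ℂ) * τ + (s : ℂ))) + (t.1.2.1 : ℂ)) / (t.1.2.2 : ℂ))
    = ((r : ℂ) * τ + (s : ℂ)) ^ 2 * ((l : ℂ) / ((e t).1.2.2 : ℂ) ^ 2 * g z)
  rw [harg, hgz, hden]
  field_simp

theorem hecke_bdd {l : ℕ} {g : ℂ → ℂ} (hl : l.Prime) {B : ℝ}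
    (hB : ∀ τ : ℂ, 0 < τ.im → τ.im * ‖g τ‖ ≤ B) {τ : ℂ} (hτ : 0 < τ.im) :
    τ.im * ‖heckeG l g τ‖ ≤ (Tn l).card • B := by
  have h1 : τ.im * ‖heckeG l g τ‖ ≤ ∑ t ∈ Tn l, τ.im * ‖((l : ℂ) / (t.2.2 : ℂ) ^ 2) *
      g (((t.1 : ℂ) * τ + (t.2.1 : ℂ)) / (t.2.2 : ℂ))‖ := by
    rw [← Finset.mul_sum]
    exact mul_le_mul_of_nonneg_left (norm_sum_le _ _) hτ.le
  refine h1.trans ?_
  refine Finset.sum_le_card_nsmul _ _ _ ?_
  intro t ht
  simp only [Tn, Finset.mem_filter] at ht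
  obtain ⟨-, had, hbd⟩ := ht
  have hd : (0 : ℝ) < (t.2.2 : ℝ) := by
    have : 0 < t.2.2 := by omega
    exact_mod_cast this
  have ha : (0 : ℝ) < (t.1 : ℝ) := by
    have : 0 < t.1 := by
      rcases Nat.eq_zero_or_pos t.1 with h | h
      · rw [h, zero_mul] at had
        exact absurd had.symm hl.ne_zero
      · exact h
    exact_mod_cast this
  have him : (((t.1 : ℂ) * τ + (t.2.1 : ℂ)) / (t.2.2 : ℂ)).im = (t.1 : ℝ) * τ.im / (t.2.2 : ℝ) := by
    rw [Complex.div_natCast_im]; simp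
  have h2 := hB (((t.1 : ℂ) * τ + (t.2.1 : ℂ)) / (t.2.2 : ℂ)) (by rw [him]; positivity)
  rw [him] at h2
  have hlr : (l : ℝ) = (t.1 : ℝ) * (t.2.2 : ℝ) := by exact_mod_cast had.symm
  have h3 : τ.im * ‖((l : ℂ) / (t.2.2 : ℂ) ^ 2) *
      g (((t.1 : ℂ) * τ + (t.2.1 : ℂ)) / (t.2.2 : ℂ))‖
      = (t.1 : ℝ) * τ.im / (t.2.2 : ℝ) * ‖g (((t.1 : ℂ) * τ + (t.2.1 : ℂ)) / (t.2.2 : ℂ))‖ := by
    rw [norm_mul, norm_div, norm_pow]
    simp only [Complex.norm_natCast]
    rw [hlr]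
    field_simp
  rw [h3]
  exact h2

theorem st_HECKE (hP : ST_PERM) : ST_HECKE := by
  intro M l b hM hl hlM hb
  have hqs : ∀ τ : ℂ, 0 < τ.im → qs (Tl l b) τ = heckeG l (qs b) τ := by
    intro τ hτ
    exact (hecke_hasSum hl hb hτ).tsum_eq
  refine ⟨fun τ hτ => (hecke_hasSum hl hb hτ).summable, ?_, ?_⟩
  · intro τ hτ p q r s hdet hr
    have him : 0 < (((p : ℂ) * τ + (q : ℂ)) / ((r : ℂ) * τ + (s : ℂ))).im := by
      have hden : ((r : ℂ) * τ + (s : ℂ)) ≠ 0 := by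
        intro h0
        have him : (r : ℝ) * τ.im = 0 := by
          have := congrArg Complex.im h0
          simpa using this
        have hr0 : (r : ℝ) = 0 := by
          rcases mul_eq_zero.1 him with h | h
          · exact h
          · exact absurd h hτ.ne'
        have hr1 : r = 0 := by exact_mod_cast hr0
        subst hr1
        have hs0 : (s : ℂ) = 0 := by simpa using h0
        have hs1 : s = 0 := by exact_mod_cast hs0
        subst hs1
        simp at hdet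
      have hn : 0 < Complex.normSq ((r : ℂ) * τ + (s : ℂ)) := Complex.normSq_pos.2 hden
      have : (((p : ℂ) * τ + (q : ℂ)) / ((r : ℂ) * τ + (s : ℂ))).im
          = τ.im / Complex.normSq ((r : ℂ) * τ + (s : ℂ)) := by
        rw [Complex.div_im]
        have hdr : (p : ℝ) * s - q * r = 1 := by exact_mod_cast hdet
        simp only [Complex.add_im, Complex.mul_im, Complex.intCast_re, Complex.intCast_im,
          Complex.add_re, Complex.mul_re, zero_mul, add_zero, sub_zero]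
        rw [← sub_div]
        congr 1
        linear_combination τ.im * hdr
      rw [this]; positivity
    rw [hqs _ him, hqs _ hτ]
    exact hecke_inv hP hM hl hlM hb.inv hτ hdet hr
  · obtain ⟨B, hB⟩ := hb.bdd
    refine ⟨(Tn l).card • B, fun τ hτ => ?_⟩
    rw [hqs _ hτ]
    exact hecke_bdd hl hB hτ

end Pool.Agent.Helper96.MP
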