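import Pool.Agent.Helper96.MP.DefsB

/-!
# MP_bde085_nt: module COVB (assembly of KIND and MERT)
-/

set_option autoImplicit false

namespace Pool.Agent.Helper96.MP

lemma covb_factor_pos (q : ℕ) (hq : 2 ≤ q) : (2 : ℝ) / 3 ≤ 1 - 1 / ((q : ℝ) + 1) := by
  have h : (2 : ℝ) ≤ (q : ℝ) := by exact_mod_cast hq
  have h1 : 1 / ((q : ℝ) + 1) ≤ 1 / 3 := by
    apply one_div_le_one_div_of_le (by norm_num)
    linarith
  linarith

lemma covb_factor_le (q : ℕ) : 1 - 1 / ((q : ℝ) + 1) ≤ 1 := by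
  have h : (0 : ℝ) ≤ (q : ℝ) := Nat.cast_nonneg q
  have h1 : 0 ≤ 1 / ((q : ℝ) + 1) := by positivity
  linarith

theorem st_COVB (hK : ST_KIND) (hM : ST_MERT) : ST_COVB := by
  obtain ⟨C, hC, hCp⟩ := hM
  refine ⟨C + 3 / 2 * C ^ 2, by positivity, ?_⟩
  intro N p _ hN hp hq V hV
  obtain ⟨hm1, hm2⟩ := hCp p hp
  have hS : ∀ q ∈ Nat.primesBelow p, q.Prime ∧ q ∣ N := by
    intro q hqm
    rw [Nat.mem_primesBelow] at hqm
    exact ⟨hqm.2, hq q hqm.2 hqm.1⟩
  obtain ⟨r, D, hLB, hD1, hr, hlog⟩ := hK N (Nat.primesBelow p) hN hS V hV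
  refine ⟨r, D, hLB, hD1, ?_, ?_⟩
  · have hlp : 0 < Real.log p := Real.log_pos (by exact_mod_cast hp.one_lt)
    have hcard : (0 : ℝ) ≤ (Nat.card (PN N) : ℝ) := Nat.cast_nonneg _
    have h1 : (r : ℝ) ≤ (Nat.card (PN N) : ℝ) * (C / Real.log p) :=
      hr.trans (mul_le_mul_of_nonneg_left hm1 hcard)
    have h2 : (r : ℝ) * Real.log p ≤ (Nat.card (PN N) : ℝ) * (C / Real.log p) * Real.log p :=
      mul_le_mul_of_nonneg_right h1 hlp.le
    have h3 : (Nat.card (PN N) : ℝ) * (C / Real.log p) * Real.log p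
        = C * (Nat.card (PN N) : ℝ) := by
      field_simp
    rw [h3] at h2
    have h4 : 0 ≤ 3 / 2 * C ^ 2 * (Nat.card (PN N) : ℝ) := by positivity
    linarith
  · have hlp : 0 < Real.log p := Real.log_pos (by exact_mod_cast hp.one_lt)
    have hcard : (0 : ℝ) ≤ (Nat.card (PN N) : ℝ) := Nat.cast_nonneg _
    have hPpos : 0 ≤ ∏ q ∈ Nat.primesBelow p, (1 - 1 / ((q : ℝ) + 1)) := by
      apply Finset.prod_nonneg
      intro q hqm
      rw [Nat.mem_primesBelow] at hqm
      have := covb_factor_pos q hqm.2.two_le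
      linarith
    have hsum : ∑ q ∈ Nat.primesBelow p, Real.log ((q : ℝ) + 1) / q *
        ∏ t ∈ (Nat.primesBelow p).erase q, (1 - 1 / ((t : ℝ) + 1))
        ≤ ∑ q ∈ Nat.primesBelow p, Real.log ((q : ℝ) + 1) / q *
          (3 / 2 * ∏ t ∈ Nat.primesBelow p, (1 - 1 / ((t : ℝ) + 1))) := by
      apply Finset.sum_le_sum
      intro q hqm
      have hqm' := hqm
      rw [Nat.mem_primesBelow] at hqm'
      have hq2 := covb_factor_pos q hqm'.2.two_le
      have hEpos : 0 ≤ ∏ t ∈ (Nat.primesBelow p).erase q, (1 - 1 / ((t : ℝ) + 1)) := by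
        apply Finset.prod_nonneg
        intro t ht
        have ht' := Finset.mem_of_mem_erase ht
        rw [Nat.mem_primesBelow] at ht'
        have := covb_factor_pos t ht'.2.two_le
        linarith
      apply mul_le_mul_of_nonneg_left
      · rw [← Finset.mul_prod_erase (Nat.primesBelow p)
          (fun t : ℕ => (1 - 1 / ((t : ℝ) + 1))) hqm]
        have : (2 : ℝ) / 3 * ∏ t ∈ (Nat.primesBelow p).erase q, (1 - 1 / ((t : ℝ) + 1))
          ≤ (1 - 1 / ((q : ℝ) + 1)) *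
            ∏ t ∈ (Nat.primesBelow p).erase q, (1 - 1 / ((t : ℝ) + 1)) :=
          mul_le_mul_of_nonneg_right hq2 hEpos
        linarith
      · have h0 : (0 : ℝ) ≤ (q : ℝ) := Nat.cast_nonneg q
        apply div_nonneg _ h0
        apply Real.log_nonneg
        linarith
    rw [← Finset.sum_mul] at hsum
    have hSpos : 0 ≤ ∑ q ∈ Nat.primesBelow p, Real.log ((q : ℝ) + 1) / q := by
      apply Finset.sum_nonneg
      intro q _
      have h0 : (0 : ℝ) ≤ (q : ℝ) := Nat.cast_nonneg q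
      apply div_nonneg _ h0
      apply Real.log_nonneg
      linarith
    have hprod : (∑ q ∈ Nat.primesBelow p, Real.log ((q : ℝ) + 1) / q) *
        (3 / 2 * ∏ t ∈ Nat.primesBelow p, (1 - 1 / ((t : ℝ) + 1)))
        ≤ (C * Real.log p) * (3 / 2 * (C / Real.log p)) := by
      apply mul_le_mul hm2 _ (by positivity) (by positivity)
      linarith
    have h3 : (C * Real.log p) * (3 / 2 * (C / Real.log p)) = 3 / 2 * C ^ 2 := by
      field_simp
    rw [h3] at hprod
    have h5 : Real.log D ≤ (Nat.card (PN N) : ℝ) * (3 / 2 * C ^ 2) :=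
      hlog.trans (mul_le_mul_of_nonneg_left (hsum.trans hprod) hcard)
    have h6 : 0 ≤ C * (Nat.card (PN N) : ℝ) := by positivity
    linarith

end Pool.Agent.Helper96.MP
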