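import Pool.Agent.Helper96.MP.DefsB

/-!
# MP_bde085_nt: module RED (reductions of classes)
-/

set_option autoImplicit false

namespace Pool.Agent.Helper96.MP

theorem st_RED : ST_RED := by
  refine ⟨?_, ?_⟩
  · intro N M h c d hu hu'
    apply Quotient.sound
    have h1 : eqv N (pnf_out (Quotient.mk (sPN N) ⟨(c, d), hu⟩ : PN N)).1.1
        (pnf_out (Quotient.mk (sPN N) ⟨(c, d), hu⟩ : PN N)).1.2 c d :=
      Quotient.exact (pnf_out_spec (Quotient.mk (sPN N) ⟨(c, d), hu⟩ : PN N))
    exact pnf_eqv_mono h h1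
  · intro N M L h h' h'' x
    apply Quotient.sound
    have h1 : eqv M (pnf_out (pnf_red M h x)).1.1 (pnf_out (pnf_red M h x)).1.2
        (pnf_out x).1.1 (pnf_out x).1.2 :=
      Quotient.exact (pnf_out_spec (pnf_red M h x))
    exact pnf_eqv_mono h' h1

end Pool.Agent.Helper96.MP
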