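import Pool.Agent.Helper96.MP.Defs

/-! A crude Sturm bound. -/

set_option autoImplicit false

namespace Pool.Agent.Helper96.MP

open Complex MeasureTheory Filter Topology CongruenceSubgroup
open UpperHalfPlane hiding I
open scoped MatrixGroups ModularForm Manifold

theorem sturm_coe (A : SL(2, ℤ)) (τ : ℍ) : ((A • τ : ℍ) : ℂ) =
    (((A 0 0 : ℤ) : ℂ) * (τ : ℂ) + ((A 0 1 : ℤ) : ℂ)) /
      (((A 1 0 : ℤ) : ℂ) * (τ : ℂ) + ((A 1 1 : ℤ) : ℂ)) := by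
  rw [UpperHalfPlane.specialLinearGroup_apply]
  simp

theorem sturm_denom (A : SL(2, ℤ)) (τ : ℍ) : denom A τ =
    ((A 1 0 : ℤ) : ℂ) * (τ : ℂ) + ((A 1 1 : ℤ) : ℂ) := ModularGroup.denom_apply A τ

theorem sturm_det (A : SL(2, ℤ)) : A 0 0 * A 1 1 - A 0 1 * A 1 0 = 1 := by
  have := A.det_coe
  rw [Matrix.det_fin_two] at this
  exact this

theorem sturm_dvd {M : ℕ} {A : SL(2, ℤ)} (hA : A ∈ Gamma0 M) : (M : ℤ) ∣ A 1 0 := by
  rw [Gamma0_mem] at hA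
  exact (ZMod.intCast_zmod_eq_zero_iff_dvd _ _).1 hA

/-- bound for all slashes -/
theorem sturm_slash_le {g : ℂ → ℂ} {B : ℝ} (hB : ∀ τ : ℂ, 0 < τ.im → τ.im * ‖g τ‖ ≤ B)
    (A : SL(2, ℤ)) (τ : ℍ) : τ.im * ‖((fun τ : ℍ => g τ) ∣[(2 : ℤ)] A) τ‖ ≤ B := by
  have h1 := hB ((A • τ : ℍ) : ℂ) (A • τ).im_pos
  rw [UpperHalfPlane.coe_im] at h1
  rw [ModularForm.SL_slash_apply, norm_mul, norm_zpow, zpow_neg]
  have h2 : (A • τ).im = τ.im / ‖denom A τ‖ ^ 2 := by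
    rw [ModularGroup.im_smul_eq_div_normSq, Complex.normSq_eq_norm_sq]
  rw [h2] at h1
  have h3 : 0 < ‖denom A τ‖ := norm_pos_iff.2 (denom_ne_zero _ _)
  calc τ.im * (‖g ((A • τ : ℍ) : ℂ)‖ * (‖denom A τ‖ ^ (2 : ℤ))⁻¹)
      = τ.im / ‖denom A τ‖ ^ 2 * ‖g ((A • τ : ℍ) : ℂ)‖ := by
        rw [div_eq_mul_inv, show (2 : ℤ) = ((2 : ℕ) : ℤ) by rfl, zpow_natCast]; ring
    _ ≤ B := h1

/-- the modular form -/
noncomputable def sturm_f {M : ℕ} {b : ℕ → ℂ} [NeZero M] (hb : Cusp M b)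
    (hd : DifferentiableOn ℂ (qs b) UH) : ModularForm ((Gamma0 M : Subgroup SL(2, ℤ)) : Subgroup (GL (Fin 2) ℝ)) 2 where
  toFun := fun τ : ℍ => qs b τ
  slash_action_eq' := by
    rintro γ ⟨A, hA, rfl⟩
    have hA' : (M : ℤ) ∣ A 1 0 := sturm_dvd hA
    ext τ
    change ((fun τ : ℍ => qs b τ) ∣[(2 : ℤ)] A) τ = _
    rw [ModularForm.SL_slash_apply, sturm_coe, sturm_denom,
      hb.inv τ τ.im_pos (A 0 0) (A 0 1) (A 1 0) (A 1 1) (sturm_det A) hA']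
    have h3 : ((A 1 0 : ℤ) : ℂ) * (τ : ℂ) + ((A 1 1 : ℤ) : ℂ) ≠ 0 := by
      rw [← sturm_denom]; exact denom_ne_zero _ _
    rw [zpow_neg, show (2 : ℤ) = ((2 : ℕ) : ℤ) by rfl, zpow_natCast]
    field_simp
  holo' := by
    rw [UpperHalfPlane.mdifferentiable_iff]
    refine hd.congr fun z hz => ?_
    simp only [Function.comp_apply]
    rw [UpperHalfPlane.ofComplex_apply_of_im_pos hz]
    rfl
  bdd_at_cusps' := by
    intro c hc
    obtain ⟨B, hB⟩ := hb.bdd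
    have hc' : IsCusp c 𝒮ℒ := (Subgroup.IsArithmetic.isCusp_iff_isCusp_SL2Z _).1 hc
    rw [OnePoint.isBoundedAt_iff_forall_SL2Z hc']
    intro γ _
    rw [UpperHalfPlane.isBoundedAtImInfty_iff]
    refine ⟨B, 1, fun τ hτ => ?_⟩
    have h := sturm_slash_le hB γ τ
    have h0 := norm_nonneg (((fun τ : ℍ => qs b τ) ∣[(2 : ℤ)] γ) τ)
    change ‖((fun τ : ℍ => qs b τ) ∣[(2 : ℤ)] γ) τ‖ ≤ B
    nlinarith

theorem sturm_f_apply {M : ℕ} {b : ℕ → ℂ} [NeZero M] (hb : Cusp M b)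
    (hd : DifferentiableOn ℂ (qs b) UH) (τ : ℍ) : sturm_f hb hd τ = qs b τ := rfl

/-- the index is at most `M ^ 2` -/
theorem sturm_card (M : ℕ) [NeZero M] : Nat.card (𝒮ℒ ⧸
    (((Gamma0 M : Subgroup SL(2, ℤ)) : Subgroup (GL (Fin 2) ℝ)).subgroupOf 𝒮ℒ)) ≤ M ^ 2 := by
  have hex : ∀ q : 𝒮ℒ ⧸
      (((Gamma0 M : Subgroup SL(2, ℤ)) : Subgroup (GL (Fin 2) ℝ)).subgroupOf 𝒮ℒ),
      ∃ A : SL(2, ℤ), (Matrix.SpecialLinearGroup.mapGL ℝ A : GL (Fin 2) ℝ) = (q.out : 𝒮ℒ).1 :=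
    fun q => (q.out : 𝒮ℒ).2
  choose A hA using hex
  let F : (𝒮ℒ ⧸ (((Gamma0 M : Subgroup SL(2, ℤ)) : Subgroup (GL (Fin 2) ℝ)).subgroupOf 𝒮ℒ)) →
      ZMod M × ZMod M := fun q => (((A q)⁻¹ 1 0 : ℤ), ((A q)⁻¹ 1 1 : ℤ))
  have hF : Function.Injective F := by
    intro q q' h
    have h1 : (((A q)⁻¹ 1 0 : ℤ) : ZMod M) = ((A q')⁻¹ 1 0 : ℤ) := congrArg Prod.fst h
    have h2 : (((A q)⁻¹ 1 1 : ℤ) : ZMod M) = ((A q')⁻¹ 1 1 : ℤ) := congrArg Prod.snd h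
    have hm : (A q)⁻¹ * A q' ∈ Gamma0 M := by
      rw [Gamma0_mem]
      have e1 : ((A q)⁻¹ * A q') 1 0 = (A q)⁻¹ 1 0 * A q' 0 0 + (A q)⁻¹ 1 1 * A q' 1 0 := by
        rw [Matrix.SpecialLinearGroup.coe_mul, Matrix.mul_apply, Fin.sum_univ_two]
      have e2 : A q' 0 0 = (A q')⁻¹ 1 1 := by
        rw [Matrix.SpecialLinearGroup.SL2_inv_expl]; rfl
      have e3 : A q' 1 0 = -((A q')⁻¹ 1 0) := by
        rw [Matrix.SpecialLinearGroup.SL2_inv_expl]; simp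
      rw [e1, e2, e3]
      push_cast
      rw [h1, h2]
      ring
    rw [← q.out_eq, ← q'.out_eq]
    apply QuotientGroup.eq.2
    rw [Subgroup.mem_subgroupOf]
    refine ⟨(A q)⁻¹ * A q', hm, ?_⟩
    rw [map_mul, map_inv, hA, hA]
    rfl
  have h := Nat.card_le_card_of_injective F hF
  rw [Nat.card_prod, Nat.card_zmod] at h
  rw [sq]; exact h

theorem sturm_decay {b : ℕ → ℂ} (m : ℕ) (hs : ∀ τ : ℂ, 0 < τ.im →
    Summable (fun k : ℕ => b k * exp (2 * (Real.pi : ℂ) * I * (k : ℂ) * τ)))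
    (h0 : ∀ n ≤ m, b n = 0) : ∃ K : ℝ, 0 ≤ K ∧ ∀ τ : ℂ, 1 ≤ τ.im →
      ‖qs b τ‖ ≤ K * Real.exp (-2 * Real.pi * (m + 1) * τ.im) := by
  have hnorm : ∀ (k : ℕ) (τ : ℂ), ‖b k * exp (2 * (Real.pi : ℂ) * I * (k : ℂ) * τ)‖ =
      ‖b k‖ * Real.exp (-2 * Real.pi * k * τ.im) := by
    intro k τ
    rw [norm_mul, Complex.norm_exp]
    congr 2
    have : (2 * (Real.pi : ℂ) * I * (k : ℂ) * τ) = ((2 * Real.pi * k : ℝ) : ℂ) * (I * τ) := by
      push_cast; ring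
    rw [this, Complex.re_ofReal_mul, Complex.I_mul_re]
    ring
  have h1 : Summable fun k : ℕ => ‖b k‖ * Real.exp (-2 * Real.pi * k) := by
    have := (hs I (by simp)).norm
    refine this.congr fun k => ?_
    rw [hnorm]
    simp
  refine ⟨Real.exp (2 * Real.pi * (m + 1)) * ∑' k : ℕ, ‖b k‖ * Real.exp (-2 * Real.pi * k),
    mul_nonneg (Real.exp_pos _).le (tsum_nonneg fun k => by positivity), fun τ hτ => ?_⟩
  have h2 : Summable fun k : ℕ => ‖b k * exp (2 * (Real.pi : ℂ) * I * (k : ℂ) * τ)‖ :=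
    (hs τ (by linarith)).norm
  unfold qs
  refine (norm_tsum_le_tsum_norm h2).trans ?_
  have e : Real.exp (2 * Real.pi * (m + 1)) *
      (∑' k : ℕ, ‖b k‖ * Real.exp (-2 * Real.pi * k)) * Real.exp (-2 * Real.pi * (m + 1) * τ.im) =
      ∑' k : ℕ, (Real.exp (-2 * Real.pi * (m + 1) * (τ.im - 1))) *
        (‖b k‖ * Real.exp (-2 * Real.pi * k)) := by
    rw [tsum_mul_left, mul_assoc, mul_comm (∑' k : ℕ, _) (Real.exp _), ← mul_assoc, ← Real.exp_add]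
    congr 2
    ring
  rw [e]
  refine h2.tsum_le_tsum (fun k => ?_) (h1.mul_left _)
  rw [hnorm]
  by_cases hk : k ≤ m
  · rw [h0 k hk]; simp
  · push Not at hk
    have hk' : ((m : ℝ) + 1) ≤ k := by exact_mod_cast hk
    rw [mul_left_comm, ← Real.exp_add]
    apply mul_le_mul_of_nonneg_left _ (norm_nonneg _)
    apply Real.exp_le_exp.2
    nlinarith [mul_nonneg (mul_nonneg (mul_nonneg (by norm_num : (0 : ℝ) ≤ 2) Real.pi_pos.le)
      (sub_nonneg.2 hk')) (sub_nonneg.2 hτ)]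

theorem sturm_prod {Q : Type*} [Fintype Q] (F : Q → ℂ) (q0 : Q) (C : ℝ) (hC : 1 ≤ C)
    (h : ∀ q, ‖F q‖ ≤ C) : ‖∏ q, F q‖ ≤ ‖F q0‖ * C ^ Fintype.card Q := by
  classical
  rw [← Finset.mul_prod_erase _ _ (Finset.mem_univ q0), norm_mul]
  apply mul_le_mul_of_nonneg_left _ (norm_nonneg _)
  rw [norm_prod]
  calc ∏ q ∈ Finset.univ.erase q0, ‖F q‖ ≤ ∏ q ∈ Finset.univ.erase q0, C :=
        Finset.prod_le_prod (fun q _ => norm_nonneg _) (fun q _ => h q)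
    _ = C ^ (Finset.univ.erase q0).card := Finset.prod_const _
    _ ≤ C ^ Fintype.card Q := pow_le_pow_right₀ hC (by
        rw [← Finset.card_univ]; exact Finset.card_le_card (Finset.erase_subset _ _))

theorem sturm_quot {M : ℕ} {b : ℕ → ℂ} [NeZero M] (hb : Cusp M b)
    (hd : DifferentiableOn ℂ (qs b) UH) {B : ℝ} (hB : ∀ τ : ℂ, 0 < τ.im → τ.im * ‖qs b τ‖ ≤ B)
    (q : 𝒮ℒ ⧸ (((Gamma0 M : Subgroup SL(2, ℤ)) : Subgroup (GL (Fin 2) ℝ)).subgroupOf 𝒮ℒ))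
    (τ : ℍ) (hτ : 1 ≤ τ.im) :
    ‖SlashInvariantForm.quotientFunc (sturm_f hb hd) q τ‖ ≤ max B 1 := by
  induction q using Quotient.inductionOn with
  | h r =>
    obtain ⟨_, A, rfl⟩ := r
    rw [SlashInvariantForm.quotientFunc_mk]
    have e : (Matrix.SpecialLinearGroup.mapGL ℝ A : GL (Fin 2) ℝ)⁻¹ =
        Matrix.SpecialLinearGroup.mapGL ℝ A⁻¹ := by rw [map_inv]
    change ‖((fun τ : ℍ => qs b τ) ∣[(2 : ℤ)]
      (Matrix.SpecialLinearGroup.mapGL ℝ A : GL (Fin 2) ℝ)⁻¹) τ‖ ≤ _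
    rw [e]
    have h := sturm_slash_le hB A⁻¹ τ
    have h0 := norm_nonneg (((fun τ : ℍ => qs b τ) ∣[(2 : ℤ)] A⁻¹) τ)
    refine le_trans ?_ (le_max_left _ _)
    change ‖((fun τ : ℍ => qs b τ) ∣[(2 : ℤ)] A⁻¹) τ‖ ≤ B
    nlinarith

theorem sturm_norm_decay {M : ℕ} {b : ℕ → ℂ} [NeZero M] (hb : Cusp M b)
    (hd : DifferentiableOn ℂ (qs b) UH) (m : ℕ) (h0 : ∀ n ≤ m, b n = 0) :
    ∃ K : ℝ, 0 ≤ K ∧ ∀ τ : ℍ, 1 ≤ τ.im →
      ‖ModularForm.norm 𝒮ℒ (sturm_f hb hd) τ‖ ≤ K * Real.exp (-2 * Real.pi * (m + 1) * τ.im) := by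
  obtain ⟨K, hK0, hK⟩ := sturm_decay m hb.sum h0
  obtain ⟨B, hB⟩ := hb.bdd
  let _ := Fintype.ofFinite (𝒮ℒ ⧸
    (((Gamma0 M : Subgroup SL(2, ℤ)) : Subgroup (GL (Fin 2) ℝ)).subgroupOf 𝒮ℒ))
  refine ⟨K * (max B 1) ^ Fintype.card (𝒮ℒ ⧸
    (((Gamma0 M : Subgroup SL(2, ℤ)) : Subgroup (GL (Fin 2) ℝ)).subgroupOf 𝒮ℒ)),
    by positivity, fun τ hτ => ?_⟩
  have e1 : ModularForm.norm 𝒮ℒ (sturm_f hb hd) τ =
      ∏ q : 𝒮ℒ ⧸ (((Gamma0 M : Subgroup SL(2, ℤ)) : Subgroup (GL (Fin 2) ℝ)).subgroupOf 𝒮ℒ),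
        SlashInvariantForm.quotientFunc (sturm_f hb hd) q τ := by
    rw [ModularForm.coe_norm, Finset.prod_apply]
  have e2 := sturm_prod (fun q : 𝒮ℒ ⧸
      (((Gamma0 M : Subgroup SL(2, ℤ)) : Subgroup (GL (Fin 2) ℝ)).subgroupOf 𝒮ℒ) =>
      SlashInvariantForm.quotientFunc (sturm_f hb hd) q τ)
    (Quotient.mk _ (1 : 𝒮ℒ)) (max B 1) (le_max_right _ _) (fun q => sturm_quot hb hd hB q τ hτ)
  have e3 : SlashInvariantForm.quotientFunc (sturm_f hb hd) (Quotient.mk _ (1 : 𝒮ℒ)) τ = qs b τ := by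
    rw [SlashInvariantForm.quotientFunc_mk]
    simp only [OneMemClass.coe_one, inv_one, SlashAction.slash_one]
    rfl
  simp only [e3] at e2
  rw [e1]
  refine e2.trans ?_
  have e4 := hK τ hτ
  calc ‖qs b τ‖ * (max B 1) ^ Fintype.card (𝒮ℒ ⧸
      (((Gamma0 M : Subgroup SL(2, ℤ)) : Subgroup (GL (Fin 2) ℝ)).subgroupOf 𝒮ℒ))
      ≤ (K * Real.exp (-2 * Real.pi * (m + 1) * (τ : ℂ).im)) * (max B 1) ^ Fintype.card (𝒮ℒ ⧸
      (((Gamma0 M : Subgroup SL(2, ℤ)) : Subgroup (GL (Fin 2) ℝ)).subgroupOf 𝒮ℒ)) :=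
        mul_le_mul_of_nonneg_right e4 (by positivity)
    _ = _ := by rw [UpperHalfPlane.coe_im]; ring

theorem sturm_coeff {k : ℤ} (f : ModularForm 𝒮ℒ k) (m : ℕ) (K : ℝ) (hK0 : 0 ≤ K)
    (hK : ∀ τ : ℍ, 1 ≤ τ.im → ‖f τ‖ ≤ K * Real.exp (-2 * Real.pi * (m + 1) * τ.im)) (n : ℕ)
    (hn : n ≤ m) : (qExpansion 1 f).coeff n = 0 := by
  have hbound : ∀ t : ℝ, 1 ≤ t → ‖(qExpansion 1 f).coeff n‖ ≤ K * Real.exp (-2 * Real.pi * t) := by
    intro t ht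
    have ht0 : 0 < t := by linarith
    rw [ModularFormClass.qExpansion_coeff_eq_intervalIntegral f one_pos (by simp) n ht0]
    rw [Complex.ofReal_one, div_one, one_mul]
    refine (intervalIntegral.norm_integral_le_of_norm_le_const
      (C := K * Real.exp (-2 * Real.pi * t)) ?_).trans ?_
    · intro u _
      rw [norm_mul, norm_div, norm_one, norm_pow, Function.Periodic.norm_qParam]
      have him : ((u : ℂ) + (t : ℂ) * I).im = t := by simp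
      rw [him, div_one, ← Real.exp_nat_mul, one_div, ← Real.exp_neg]
      have h1 := hK ⟨(u : ℂ) + (t : ℂ) * I, by simpa using ht0⟩ (by
        change 1 ≤ ((u : ℂ) + (t : ℂ) * I).im
        rw [him]; exact ht)
      have him2 : UpperHalfPlane.im ⟨(u : ℂ) + (t : ℂ) * I, by simpa using ht0⟩ = t := him
      rw [him2] at h1
      calc Real.exp (-((n : ℝ) * (-2 * Real.pi * t))) *
            ‖f ⟨(u : ℂ) + (t : ℂ) * I, by simpa using ht0⟩‖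
          ≤ Real.exp (-((n : ℝ) * (-2 * Real.pi * t))) *
            (K * Real.exp (-2 * Real.pi * (m + 1) * t)) :=
            mul_le_mul_of_nonneg_left h1 (Real.exp_pos _).le
        _ = K * Real.exp (-((n : ℝ) * (-2 * Real.pi * t)) + -2 * Real.pi * (m + 1) * t) := by
            rw [Real.exp_add]; ring
        _ ≤ K * Real.exp (-2 * Real.pi * t) := by
            apply mul_le_mul_of_nonneg_left _ hK0
            apply Real.exp_le_exp.2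
            have hnm : (n : ℝ) ≤ m := by exact_mod_cast hn
            nlinarith [mul_nonneg (mul_nonneg Real.pi_pos.le ht0.le) (sub_nonneg.2 hnm)]
    · rw [sub_zero, abs_one, mul_one]
  have hlim : Tendsto (fun t : ℝ => K * Real.exp (-2 * Real.pi * t)) atTop (𝓝 0) := by
    have h1 : Tendsto (fun t : ℝ => -2 * Real.pi * t) atTop atBot :=
      tendsto_id.const_mul_atTop_of_neg (by nlinarith [Real.pi_pos])
    have h2 := (Real.tendsto_exp_atBot.comp h1).const_mul K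
    rw [mul_zero] at h2
    exact h2
  have h3 : ‖(qExpansion 1 f).coeff n‖ ≤ 0 :=
    ge_of_tendsto hlim (eventually_atTop.2 ⟨1, hbound⟩)
  exact norm_le_zero_iff.1 h3

theorem st_STURM (hQ : ST_QDIF) (hU : ST_QUNI) : ST_STURM := by
  intro M b hM hb h0
  have hne : NeZero M := ⟨by omega⟩
  obtain ⟨_, hd, _⟩ := hQ M b hM hb
  obtain ⟨K, hK0, hK⟩ := sturm_norm_decay hb hd (M ^ 2) h0
  have hord : ((((2 : ℤ) * (Nat.card (𝒮ℒ ⧸
      (((Gamma0 M : Subgroup SL(2, ℤ)) : Subgroup (GL (Fin 2) ℝ)).subgroupOf 𝒮ℒ)) : ℤ)).toNat / 12 :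
      ℕ) : ℕ∞) < (qExpansion 1 (ModularForm.norm 𝒮ℒ (sturm_f hb hd))).order := by
    have h1 : ((M ^ 2 + 1 : ℕ) : ℕ∞) ≤
        (qExpansion 1 (ModularForm.norm 𝒮ℒ (sturm_f hb hd))).order := by
      apply PowerSeries.nat_le_order
      intro i hi
      exact sturm_coeff _ (M ^ 2) K hK0 (fun τ hτ => by exact_mod_cast hK τ hτ) i (by omega)
    refine lt_of_lt_of_le ?_ h1
    have h2 := sturm_card M
    exact_mod_cast (by omega :
      ((2 : ℤ) * (Nat.card (𝒮ℒ ⧸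
      (((Gamma0 M : Subgroup SL(2, ℤ)) : Subgroup (GL (Fin 2) ℝ)).subgroupOf 𝒮ℒ)) : ℤ)).toNat / 12
        < M ^ 2 + 1)
  have hz := ModularForm.sturm_bound_levelOne hord
  rw [ModularForm.norm_eq_zero_iff] at hz
  have hall : b = fun _ => 0 := by
    apply hU b (fun _ => 0) hb.sum
    · intro τ _
      simp only [zero_mul]
      exact summable_zero
    · intro τ hτ
      have h1 : qs b τ = 0 := congrFun hz (⟨τ, hτ⟩ : ℍ)
      rw [h1]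
      unfold qs
      simp
  intro n
  rw [hall]

end Pool.Agent.Helper96.MP
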